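import Pool.Agent.Helper50_AK.B6a

set_option autoImplicit false

/-!
Squad AK, module B6: the tangential system near the hypersurface (T1Stmt) from the torus.
-/

namespace Pool.Agent.AK.H50

open Complex

variable {N : ℕ}

theorem HS_add {q : ℤ} {c d : Z4 → ℂ} (hc : HS q c) (hd : HS q d) :
    HS q (fun k => c k + d k) := by
  refine Summable.of_nonneg_of_le (fun k => ?_) (fun k => ?_)
    ((hc.mul_left 2).add (hd.mul_left 2))
  · exact mul_nonneg (zpow_pos (Lam_pos k) _).le (sq_nonneg _)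
  · have h1 : ‖c k + d k‖ ^ 2 ≤ 2 * ‖c k‖ ^ 2 + 2 * ‖d k‖ ^ 2 := by
      have := norm_add_le (c k) (d k)
      nlinarith [sq_nonneg (‖c k‖ - ‖d k‖), norm_nonneg (c k + d k)]
    have h2 : 0 ≤ Lam 1 k ^ (2 * q) := (zpow_pos (Lam_pos k) _).le
    calc Lam 1 k ^ (2 * q) * ‖c k + d k‖ ^ 2
        ≤ Lam 1 k ^ (2 * q) * (2 * ‖c k‖ ^ 2 + 2 * ‖d k‖ ^ 2) :=
          mul_le_mul_of_nonneg_left h1 h2
      _ = _ := by ring

theorem HS_smul {q : ℤ} (t : ℂ) {c : Z4 → ℂ} (hc : HS q c) : HS q (fun k => t * c k) := by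
  have h := hc.mul_left (‖t‖ ^ 2)
  refine h.congr fun k => ?_
  rw [norm_mul, mul_pow]
  ring

theorem HS_zero {q : ℤ} : HS q (fun _ : Z4 => (0 : ℂ)) := by
  unfold HS
  simp

theorem HS_sum {ι : Type} {q : ℤ} (s : Finset ι) {f : ι → Z4 → ℂ} (h : ∀ i, HS q (f i)) :
    HS q (fun k => ∑ i ∈ s, f i k) := by
  classical
  induction s using Finset.induction_on with
  | empty => simpa using HS_zero
  | insert a s ha ih =>
    have h1 : (fun k => ∑ i ∈ insert a s, f i k) = fun k => f a k + ∑ i ∈ s, f i k := by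
      funext k
      rw [Finset.sum_insert ha]
    rw [h1]
    exact HS_add (h a) ih

theorem HS_mono {V : Type} [NormedAddCommGroup V] {q q' : ℤ} (h : q' ≤ q) {c : Z4 → V}
    (hc : HS q c) : HS q' c := by
  refine Summable.of_nonneg_of_le (fun k => ?_) (fun k => ?_) hc
  · exact mul_nonneg (zpow_pos (Lam_pos k) _).le (sq_nonneg _)
  · exact mul_le_mul_of_nonneg_right (zpow_le_zpow_right₀ (Lam_ge k) (by omega)) (sq_nonneg _)

theorem HS_coord {q : ℤ} {w : Z4 → EuclideanSpace ℂ (Fin N)} (hw : HS q w) (i : Fin N) :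
    HS q (fun k => w k i) := by
  refine Summable.of_nonneg_of_le (fun k => ?_) (fun k => ?_) hw
  · exact mul_nonneg (zpow_pos (Lam_pos k) _).le (sq_nonneg _)
  · refine mul_le_mul_of_nonneg_left ?_ (zpow_pos (Lam_pos k) _).le
    exact pow_le_pow_left₀ (norm_nonneg _) (PiLp.norm_apply_le (w k) i) 2

theorem HS_of_coord {q : ℤ} {w : Z4 → EuclideanSpace ℂ (Fin N)}
    (hw : ∀ i, HS q (fun k => w k i)) : HS q w := by
  have h : Summable fun k => ∑ i, Lam 1 k ^ (2 * q) * ‖w k i‖ ^ 2 :=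
    summable_sum fun i _ => hw i
  refine h.congr fun k => ?_
  rw [EuclideanSpace.norm_sq_eq, Finset.mul_sum]

theorem HS_bdd {V : Type} [NormedAddCommGroup V] {q : ℤ} (hq : 0 ≤ q) {c : Z4 → V}
    (hc : HS q c) : ∃ C, ∀ k, ‖c k‖ ≤ C := by
  refine ⟨Real.sqrt (∑' k, Lam 1 k ^ (2 * q) * ‖c k‖ ^ 2), fun k => ?_⟩
  apply Real.le_sqrt_of_sq_le
  have h1 : 1 ≤ Lam 1 k ^ (2 * q) := one_le_zpow₀ (Lam_ge k) (by omega)
  have h2 : Lam 1 k ^ (2 * q) * ‖c k‖ ^ 2 ≤ ∑' k, Lam 1 k ^ (2 * q) * ‖c k‖ ^ 2 :=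
    hc.le_tsum k fun j _ => mul_nonneg (zpow_pos (Lam_pos j) _).le (sq_nonneg _)
  nlinarith [sq_nonneg ‖c k‖]

theorem scv_coord {a : Z4 → ℂ} {w : Z4 → EuclideanSpace ℂ (Fin N)}
    (ha : Summable fun k => ‖a k‖) (hw : ∃ C, ∀ k, ‖w k‖ ≤ C) (k : Z4) (i : Fin N) :
    scv a w k i = scv a (fun l => w l i) k := by
  obtain ⟨C, hC⟩ := hw
  unfold scv
  have hs : Summable fun l => a (k - l) • w l := by
    refine Summable.of_norm_bounded (g := fun l => ‖a (k - l)‖ * C) ?_ ?_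
    · exact (((Equiv.subLeft k).summable_iff).2 ha).mul_right C
    · intro l
      rw [norm_smul]
      exact mul_le_mul_of_nonneg_left (hC l) (norm_nonneg _)
  have := (EuclideanSpace.proj i : EuclideanSpace ℂ (Fin N) →L[ℂ] ℂ).map_tsum hs
  simpa using this

theorem scv_summable {a : Z4 → ℂ} {w : Z4 → ℂ}
    (ha : Summable fun k => ‖a k‖) (hw : ∃ C, ∀ k, ‖w k‖ ≤ C) (k : Z4) :
    Summable fun l => a (k - l) • w l := by
  obtain ⟨C, hC⟩ := hw
  refine Summable.of_norm_bounded (g := fun l => ‖a (k - l)‖ * C) ?_ ?_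
  · exact (((Equiv.subLeft k).summable_iff).2 ha).mul_right C
  · intro l
    rw [norm_smul]
    exact mul_le_mul_of_nonneg_left (hC l) (norm_nonneg _)

theorem bdd_coord {w : Z4 → EuclideanSpace ℂ (Fin N)} (hw : ∃ C, ∀ k, ‖w k‖ ≤ C) (i : Fin N) :
    ∃ C, ∀ k, ‖w k i‖ ≤ C := by
  obtain ⟨C, hC⟩ := hw
  exact ⟨C, fun k => (PiLp.norm_apply_le (w k) i).trans (hC k)⟩

theorem cv_coord (B1 : B1Stmt) {M : Fin N → Fin N → R4 → ℂ} (hM : ∀ i j, PerSm (M i j))
    {w : Z4 → EuclideanSpace ℂ (Fin N)} (hw : ∃ C, ∀ k, ‖w k‖ ≤ C) (k : Z4) (i : Fin N) :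
    cv (MM M) w k i = ∑ j, scv (FC (M i j)) (fun l => w l j) k := by
  have hw' := hw
  obtain ⟨C, hC⟩ := hw
  unfold cv
  have hs : Summable fun l => (MM M (k - l)) (w l) := by
    refine Summable.of_norm_bounded (g := fun l => ‖MM M (k - l)‖ * C) ?_ ?_
    · exact (((Equiv.subLeft k).summable_iff).2 (summable_MM B1 M hM)).mul_right C
    · intro l
      exact ((MM M (k - l)).le_opNorm _).trans
        (mul_le_mul_of_nonneg_left (hC l) (norm_nonneg _))
  have h1 := (EuclideanSpace.proj i : EuclideanSpace ℂ (Fin N) →L[ℂ] ℂ).map_tsum hs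
  have h2 : (∑' l, (MM M (k - l)) (w l)) i = ∑' l, (MM M (k - l)) (w l) i := by simpa using h1
  rw [h2]
  have h3 : (fun l => (MM M (k - l)) (w l) i) = fun l => ∑ j, FC (M i j) (k - l) • w l j := by
    funext l
    rw [MM_apply]
    rfl
  rw [h3, Summable.tsum_finsetSum]
  · rfl
  · intro j _
    exact scv_summable (FC_summable B1 (hM i j)) (bdd_coord hw' j) k

theorem dj_coord (j : Fin 4) (w : Z4 → EuclideanSpace ℂ (Fin N)) (k : Z4) (i : Fin N) :
    dj j w k i = dj j (fun l => w l i) k := rfl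

section B2

variable (B1 : B1Stmt) (B2 : B2Stmt)

include B2

theorem HS_dj {q : ℤ} {w : Z4 → EuclideanSpace ℂ (Fin N)} (hw : HS q w) (j : Fin 4) :
    HS (q - 1) (dj j w) :=
  HS_of_coord fun i => B2.2.2.2.1 q _ j (HS_coord hw i)

theorem syn_sum {ι : Type} (s : Finset ι) {f : ι → Z4 → ℂ} (h : ∀ i, HS 3 (f i)) (x : R4) :
    syn (fun k => ∑ i ∈ s, f i k) x = ∑ i ∈ s, syn (f i) x := by
  classical
  induction s using Finset.induction_on with
  | empty => simp [syn]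
  | insert a s ha ih =>
    have h1 : (fun k => ∑ i ∈ insert a s, f i k) = fun k => f a k + ∑ i ∈ s, f i k := by
      funext k
      rw [Finset.sum_insert ha]
    rw [h1, B2.2.2.2.2 _ _ (h a) (HS_sum s h), ih, Finset.sum_insert ha]

omit B2 in
theorem syn_smul (t : ℂ) (c : Z4 → ℂ) (x : R4) : syn (fun k => t * c k) x = t * syn c x := by
  unfold syn
  rw [← tsum_mul_left]
  congr 1
  funext k
  ring

include B1

theorem iter_coord {γ : R4 → ℂ} (hγ : PerSm γ) {q : ℤ} (hq : 3 ≤ q)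
    {w : Z4 → EuclideanSpace ℂ (Fin N)} (hw : HS q w) (m : ℕ) :
    HS q ((scv (FC γ))^[m] w) ∧ ∀ (i : Fin N) (x : R4),
      syn (fun k => ((scv (FC γ))^[m] w) k i) x = γ x ^ m * syn (fun k => w k i) x := by
  induction m with
  | zero =>
    refine ⟨hw, fun i x => ?_⟩
    simp
  | succ m ih =>
    obtain ⟨h1, h2⟩ := ih
    have hb := HS_bdd (by omega : (0 : ℤ) ≤ q) h1
    have h3 : ∀ i : Fin N, (fun k => ((scv (FC γ))^[m + 1] w) k i) =
        scv (FC γ) (fun k => ((scv (FC γ))^[m] w) k i) := by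
      intro i
      funext k
      rw [Function.iterate_succ_apply']
      exact scv_coord (FC_summable B1 hγ) hb k i
    have h4 : ∀ i : Fin N, HS q (fun k => ((scv (FC γ))^[m] w) k i) := fun i => HS_coord h1 i
    refine ⟨HS_of_coord fun i => ?_, fun i x => ?_⟩
    · rw [h3 i]
      exact (B2.2.2.1 q _ γ hq (h4 i) hγ).1
    · rw [h3 i, (B2.2.2.1 q _ γ hq (h4 i) hγ).2 x, h2 i x]
      ring

/-- the function of the i-th component -/
noncomputable def Cf (w : Z4 → EuclideanSpace ℂ (Fin N)) (i : Fin N) : R4 → ℂ :=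
  syn (fun k => w k i)

theorem Q_syn (D : FData N) (t : ℝ) {w : Z4 → EuclideanSpace ℂ (Fin N)} (hw : HS 4 w)
    (i : Fin N) (x : R4) : HS 3 (fun k => (tdata B1 D).Q t w k i) ∧
    syn (fun k => (tdata B1 D).Q t w k i) x = vff D.a (Cf w i) x +
      ((t / 2 : ℝ) : ℂ) * (vff D.a D.φ x * Cf w i x) + ∑ j, D.M i j x * Cf w j x := by
  have hb := HS_bdd (by norm_num : (0 : ℤ) ≤ 4) hw
  have hd : ∀ j, HS 3 (dj j w) := fun j => HS_dj B2 hw j
  have hdb : ∀ j, ∃ C, ∀ k, ‖dj j w k‖ ≤ C := fun j =>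
    HS_bdd (by norm_num : (0 : ℤ) ≤ 3) (hd j)
  have hw3 : HS 3 w := HS_mono (by norm_num) hw
  have hv : PerSm (vff D.a D.φ) := perSm_vff B1 D.ra D.rφ
  have e1 : (fun k => (tdata B1 D).Q t w k i) = fun k =>
      ((∑ j, scv (FC (D.a j)) (dj j (fun l => w l i)) k) +
        ((t / 2 : ℝ) : ℂ) * scv (FC (vff D.a D.φ)) (fun l => w l i) k) +
        ∑ j, scv (FC (D.M i j)) (fun l => w l j) k := by
    funext k
    have h1 : (vf (tdata B1 D).a w k) i = ∑ j, scv (FC (D.a j)) (dj j (fun l => w l i)) k := by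
      show (∑ j, scv (FC (D.a j)) (dj j w) k) i = _
      have h2 : ∀ f : Fin 4 → EuclideanSpace ℂ (Fin N), (∑ i', f i') i = ∑ i', f i' i := by
        intro f
        simp
      rw [h2]
      refine Finset.sum_congr rfl fun j _ => ?_
      exact scv_coord (FC_summable B1 (D.ra j)) (hdb j) k i
    have h3 : (scv (vf (tdata B1 D).a (tdata B1 D).φ) w k) i =
        scv (FC (vff D.a D.φ)) (fun l => w l i) k := by
      have h4 : vf (tdata B1 D).a (tdata B1 D).φ = FC (vff D.a D.φ) :=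
        (FC_vff B1 D.ra D.rφ).symm
      rw [h4]
      exact scv_coord (FC_summable B1 hv) hb k i
    have h5 : (cv (tdata B1 D).M w k) i = ∑ j, scv (FC (D.M i j)) (fun l => w l j) k :=
      cv_coord B1 D.rM hb k i
    show (vf (tdata B1 D).a w k) i + ((t / 2 : ℝ) : ℂ) *
      (scv (vf (tdata B1 D).a (tdata B1 D).φ) w k) i + (cv (tdata B1 D).M w k) i = _
    rw [h1, h3, h5]
  have s1 : ∀ j, HS 3 (scv (FC (D.a j)) (dj j (fun l => w l i))) ∧ ∀ x,
      syn (scv (FC (D.a j)) (dj j (fun l => w l i))) x = D.a j x * syn (dj j (fun l => w l i)) x :=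
    fun j => B2.2.2.1 3 _ (D.a j) le_rfl (HS_coord (hd j) i) (D.ra j)
  have s2 := B2.2.2.1 3 _ (vff D.a D.φ) le_rfl (HS_coord hw3 i) hv
  have s3 : ∀ j, HS 3 (scv (FC (D.M i j)) (fun l => w l j)) ∧ ∀ x,
      syn (scv (FC (D.M i j)) (fun l => w l j)) x = D.M i j x * syn (fun l => w l j) x :=
    fun j => B2.2.2.1 3 _ (D.M i j) le_rfl (HS_coord hw3 j) (D.rM i j)
  have t1 := HS_sum Finset.univ fun j => (s1 j).1
  have t2 := HS_smul ((t / 2 : ℝ) : ℂ) s2.1
  have t3 := HS_sum Finset.univ fun j => (s3 j).1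
  rw [e1]
  refine ⟨HS_add (HS_add t1 t2) t3, ?_⟩
  rw [B2.2.2.2.2 _ _ (HS_add t1 t2) t3, B2.2.2.2.2 _ _ t1 t2, syn_smul,
    syn_sum B2 _ (fun j => (s1 j).1), syn_sum B2 _ (fun j => (s3 j).1), s2.2 x]
  congr 1
  · congr 1
    unfold vff
    refine Finset.sum_congr rfl fun j _ => ?_
    rw [(s1 j).2 x]
    congr 1
    exact ((B2.2.1 4 _ le_rfl (HS_coord hw i) j x).2).symm
  · refine Finset.sum_congr rfl fun j _ => ?_
    exact (s3 j).2 x

end B2

theorem vff_mul (a : Fin 4 → R4 → ℂ) {f g : R4 → ℂ} {x : R4} (hf : DifferentiableAt ℝ f x)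
    (hg : DifferentiableAt ℝ g x) :
    vff a (fun y => f y * g y) x = f x * vff a g x + vff a f x * g x := by
  unfold vff
  rw [Finset.mul_sum, Finset.sum_mul, ← Finset.sum_add_distrib]
  refine Finset.sum_congr rfl fun j _ => ?_
  have h1 : pd j (fun y => f y * g y) x = f x * pd j g x + pd j f x * g x := by
    unfold pd
    rw [fderiv_fun_mul hf hg]
    simp
    ring
  rw [h1]
  ring

theorem vff_exp (a : Fin 4 → R4 → ℂ) (c : ℂ) {f : R4 → ℂ} {x : R4}
    (hf : DifferentiableAt ℝ f x) :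
    vff a (fun y => Complex.exp (c * f y)) x = Complex.exp (c * f x) * (c * vff a f x) := by
  unfold vff
  rw [Finset.mul_sum, Finset.mul_sum]
  refine Finset.sum_congr rfl fun j _ => ?_
  have h1 : pd j (fun y => Complex.exp (c * f y)) x =
      Complex.exp (c * f x) * (c * pd j f x) := by
    unfold pd
    have h2 : HasFDerivAt (fun y => Complex.exp (c * f y))
        (Complex.exp (c * f x) • (c • fderiv ℝ f x)) x :=
      (hf.hasFDerivAt.const_mul c).cexp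
    rw [h2.fderiv]
    simp
  rw [h1]
  ring

theorem contDiff_xc (R : ℝ) (n : WithTop ℕ∞) : ContDiff ℝ n (xc R) := by
  have h : ∀ j : Fin 2, ContDiff ℝ n fun p : C2 => p j := fun j => contDiff_apply ℝ ℂ j
  have hre : ∀ j : Fin 2, ContDiff ℝ n fun p : C2 => (p j).re / R := fun j =>
    (Complex.reCLM.contDiff.comp (h j)).div_const R
  have him : ∀ j : Fin 2, ContDiff ℝ n fun p : C2 => (p j).im / R := fun j =>
    (Complex.imCLM.contDiff.comp (h j)).div_const R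
  rw [contDiff_pi]
  intro i
  fin_cases i
  · exact hre 0
  · exact him 0
  · exact hre 1
  · exact him 1

theorem norm_le_sum (v : EuclideanSpace ℂ (Fin N)) : ‖v‖ ≤ ∑ i, ‖v i‖ := by
  have h0 : 0 ≤ ∑ i, ‖v i‖ := Finset.sum_nonneg fun i _ => norm_nonneg _
  apply le_of_sq_le_sq _ h0
  rw [EuclideanSpace.norm_sq_eq]
  calc ∑ i, ‖v i‖ ^ 2 = ∑ i, ‖v i‖ * ‖v i‖ := Finset.sum_congr rfl fun i _ => sq _
    _ ≤ ∑ i, ‖v i‖ * ∑ j, ‖v j‖ := Finset.sum_le_sum fun i _ =>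
        mul_le_mul_of_nonneg_left
          (Finset.single_le_sum (f := fun j => ‖v j‖) (fun j _ => norm_nonneg _)
            (Finset.mem_univ i)) (norm_nonneg _)
    _ = (∑ i, ‖v i‖) ^ 2 := by rw [← Finset.sum_mul, sq]

/-- B6 -/
theorem b6 : B6Stmt := by
  intro hT B1 B2 B5 Ω ρ hΩ N U₀ hU₀ hS M b hM hb m s
  obtain ⟨R, D, U, hR, hUo, hSU, hUU, hbox, hD, hL, hext⟩ := B5 Ω ρ hΩ N U₀ hU₀ hS M hM
  obtain ⟨t, ht⟩ := hT N (tdata B1 D) m (s + m + 10)
  choose bt hbt hbt' using fun i => hext (b i) (hb i)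
  have hEm : PerSm (fun x => Complex.exp (-((t / 2 : ℝ) : ℂ) * D.φ x)) := perSm_exp _ D.rφ
  have hEp : PerSm (fun x => Complex.exp (((t / 2 : ℝ) : ℂ) * D.φ x)) := perSm_exp _ D.rφ
  have hF : ∀ i, PerSm (fun x => - (Complex.exp (-((t / 2 : ℝ) : ℂ) * D.φ x) * bt i x)) :=
    fun i => perSm_neg (perSm_mul hEm (hbt i))
  set F : Fin N → R4 → ℂ := fun i x => - (Complex.exp (-((t / 2 : ℝ) : ℂ) * D.φ x) * bt i x)
    with hFdef
  let bs : Z4 → EuclideanSpace ℂ (Fin N) := fun k => WithLp.toLp 2 (fun i => FC (F i) k)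
  have hbs : Rap bs := by
    intro n
    choose C hC using fun i => (B1.1 _ (hF i)).1 n
    refine ⟨∑ i, C i, fun k => ?_⟩
    calc Lam 1 k ^ n * ‖bs k‖ ≤ Lam 1 k ^ n * ∑ i, ‖bs k i‖ :=
          mul_le_mul_of_nonneg_left (norm_le_sum _) (pow_nonneg (Lam_pos k).le n)
      _ = ∑ i, Lam 1 k ^ n * ‖FC (F i) k‖ := by rw [Finset.mul_sum]
      _ ≤ _ := Finset.sum_le_sum fun i _ => hC i k
  obtain ⟨c', h', g', hc', hh', hg', heq⟩ := ht bs hbs
  have hc4 : HS 4 c' := HS_mono (by push_cast; omega) hc'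
  have hh3 : HS 3 h' := HS_mono (by push_cast; omega) hh'
  have hg3 : HS 3 g' := HS_mono (by push_cast; omega) hg'
  have key : ∀ (i : Fin N) (x : R4), vff D.a (Cf c' i) x +
      ((t / 2 : ℝ) : ℂ) * (vff D.a D.φ x * Cf c' i x) + ∑ j, D.M i j x * Cf c' j x +
      D.γ x ^ m * Cf h' i x + D.χ x * Cf g' i x = F i x := by
    intro i x
    obtain ⟨q1, q2⟩ := Q_syn B1 B2 D t hc4 i x
    obtain ⟨r1, r2⟩ := iter_coord B1 B2 D.rγ le_rfl hh3 m
    obtain ⟨r3, r4⟩ := iter_coord B1 B2 D.rχ le_rfl hg3 1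
    have e1 : (fun k => bs k i) = fun k => ((tdata B1 D).Q t c' k i +
        ((scv (FC D.γ))^[m] h') k i) + ((scv (FC D.χ))^[1] g') k i := by
      funext k
      rw [← heq k]
      rfl
    have e2 : syn (fun k => bs k i) x = F i x := ((B1.1 _ (hF i)).2 x).tsum_eq
    rw [← e2, e1, B2.2.2.2.2 _ _ (HS_add q1 (HS_coord r1 i)) (HS_coord r3 i),
      B2.2.2.2.2 _ _ q1 (HS_coord r1 i), q2, r2, r4]
    unfold Cf
    ring
  have hCc : ∀ i, ContDiff ℝ (s : WithTop ℕ∞) (Cf c' i) := fun i =>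
    B2.1 s _ _ (by push_cast; omega) (HS_coord hc' i)
  have hCh : ∀ i, ContDiff ℝ (s : WithTop ℕ∞) (Cf h' i) := fun i =>
    B2.1 s _ _ (by push_cast; omega) (HS_coord hh' i)
  have hCd : ∀ i x, DifferentiableAt ℝ (Cf c' i) x := fun i x =>
    (B2.2.1 4 _ le_rfl (HS_coord hc4 i) 0 x).1
  have hEs : ContDiff ℝ (s : WithTop ℕ∞) (fun x => Complex.exp (((t / 2 : ℝ) : ℂ) * D.φ x)) :=
    hEp.smooth.of_le (by exact_mod_cast le_top)
  have hEd : ∀ x, DifferentiableAt ℝ (fun x => Complex.exp (((t / 2 : ℝ) : ℂ) * D.φ x)) x :=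
    fun x => (hEp.smooth.differentiable (by simp)) x
  have hφd : ∀ x, DifferentiableAt ℝ D.φ x := fun x => (D.rφ.smooth.differentiable (by simp)) x
  refine ⟨U, hUo, hSU, hUU,
    fun i p => Complex.exp (((t / 2 : ℝ) : ℂ) * D.φ (xc R p)) * Cf c' i (xc R p),
    fun i p => - (Complex.exp (((t / 2 : ℝ) : ℂ) * D.φ (xc R p)) * Cf h' i (xc R p)),
    fun i => ?_, fun i => ?_, fun p hp i => ?_⟩
  · exact ((hEs.mul (hCc i)).comp (contDiff_xc R _)).contDiffOn
  · exact ((hEs.mul (hCh i)).comp (contDiff_xc R _)).neg.contDiffOn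
  · obtain ⟨d1, d2, _, d4⟩ := hD p hp
    have l1 := hL (fun y => Complex.exp (((t / 2 : ℝ) : ℂ) * D.φ y) * Cf c' i y) p hp
      ((hEd _).mul (hCd i _))
    rw [l1, vff_mul _ (hEd _) (hCd i _), vff_exp _ _ (hφd _)]
    have k1 := key i (xc R p)
    rw [d1, d2] at k1
    have k2 : ∑ j, M i j p * (Complex.exp (((t / 2 : ℝ) : ℂ) * D.φ (xc R p)) * Cf c' j (xc R p)) =
        Complex.exp (((t / 2 : ℝ) : ℂ) * D.φ (xc R p)) *
          ∑ j, D.M i j (xc R p) * Cf c' j (xc R p) := by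
      rw [Finset.mul_sum]
      refine Finset.sum_congr rfl fun j _ => ?_
      rw [d4 i j]
      ring
    rw [k2]
    have k3 : Complex.exp (((t / 2 : ℝ) : ℂ) * D.φ (xc R p)) * F i (xc R p) = - b i p := by
      rw [hFdef]
      show _ * (-(Complex.exp (-((t / 2 : ℝ) : ℂ) * D.φ (xc R p)) * bt i (xc R p))) = _
      have : Complex.exp (((t / 2 : ℝ) : ℂ) * D.φ (xc R p)) *
          Complex.exp (-((t / 2 : ℝ) : ℂ) * D.φ (xc R p)) = 1 := by
        rw [← Complex.exp_add]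
        rw [show ((t / 2 : ℝ) : ℂ) * D.φ (xc R p) + -((t / 2 : ℝ) : ℂ) * D.φ (xc R p) = 0 by ring,
          Complex.exp_zero]
      rw [hbt' i p hp]
      linear_combination (- b i p) * this
    rw [← k1] at k3
    linear_combination k3

end Pool.Agent.AK.H50
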