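import Pool.Agent.Helper60_AK.StmtB

set_option autoImplicit false

/-!
Squad AK, module B6 (first part): periodic functions, Fourier coefficients, Sobolev sequences.
-/

namespace Pool.Agent.AK.H50

open Complex

theorem perSm_exp (c : ℂ) {φ : R4 → ℂ} (h : PerSm φ) : PerSm (fun x => Complex.exp (c * φ x)) where
  smooth := (contDiff_const.mul h.smooth).cexp
  per := fun n x => by rw [h.per]

theorem perSm_neg {f : R4 → ℂ} (h : PerSm f) : PerSm (fun x => - f x) where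
  smooth := h.smooth.neg
  per := fun n x => by rw [h.per]

theorem perSm_add {f g : R4 → ℂ} (h : PerSm f) (h' : PerSm g) : PerSm (fun x => f x + g x) where
  smooth := h.smooth.add h'.smooth
  per := fun n x => by rw [h.per, h'.per]

theorem perSm_sub {f g : R4 → ℂ} (h : PerSm f) (h' : PerSm g) : PerSm (fun x => f x - g x) where
  smooth := h.smooth.sub h'.smooth
  per := fun n x => by rw [h.per, h'.per]

theorem perSm_mul {f g : R4 → ℂ} (h : PerSm f) (h' : PerSm g) : PerSm (fun x => f x * g x) where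
  smooth := h.smooth.mul h'.smooth
  per := fun n x => by rw [h.per, h'.per]

theorem perSm_const (c : ℂ) : PerSm (fun _ => c) where
  smooth := contDiff_const
  per := fun _ _ => rfl

theorem perSm_sum {ι : Type} (s : Finset ι) {f : ι → R4 → ℂ} (h : ∀ i, PerSm (f i)) :
    PerSm (fun x => ∑ i ∈ s, f i x) where
  smooth := ContDiff.sum fun i _ => (h i).smooth
  per := fun n x => Finset.sum_congr rfl fun i _ => (h i).per n x

theorem FC_neg (f : R4 → ℂ) : FC (fun x => - f x) = fun k => - FC f k := by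
  funext k
  simp only [FC, mul_neg, MeasureTheory.integral_neg]

section B1

variable (B1 : B1Stmt)

include B1

theorem FC_add {f g : R4 → ℂ} (hf : PerSm f) (hg : PerSm g) :
    FC (fun x => f x + g x) = fun k => FC f k + FC g k := (B1.2.2.2.2.2 f g hf hg).2.2

theorem FC_sub {f g : R4 → ℂ} (hf : PerSm f) (hg : PerSm g) :
    FC (fun x => f x - g x) = fun k => FC f k - FC g k := by
  have h1 := FC_add B1 hf (perSm_neg hg)
  rw [FC_neg] at h1
  simpa [sub_eq_add_neg] using h1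

theorem FC_mul {f g : R4 → ℂ} (hf : PerSm f) (hg : PerSm g) :
    FC (fun x => f x * g x) = scv (FC f) (FC g) := B1.2.1 f g hf hg

theorem FC_const (c : ℂ) : FC (fun _ => c) = fun k => if k = 0 then c else 0 :=
  (B1.2.2.2.2.1 c).2

theorem perSm_pd (j : Fin 4) {f : R4 → ℂ} (hf : PerSm f) : PerSm (pd j f) :=
  (B1.2.2.1 j f hf).1

theorem FC_pd (j : Fin 4) {f : R4 → ℂ} (hf : PerSm f) : FC (pd j f) = dj j (FC f) :=
  (B1.2.2.1 j f hf).2

theorem perSm_cj {f : R4 → ℂ} (hf : PerSm f) : PerSm (cj f) :=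
  (B1.2.2.2.1 f hf).1

theorem FC_cj {f : R4 → ℂ} (hf : PerSm f) : FC (cj f) = stS (FC f) :=
  (B1.2.2.2.1 f hf).2

theorem FC_sum {ι : Type} (s : Finset ι) {f : ι → R4 → ℂ} (h : ∀ i, PerSm (f i)) :
    FC (fun x => ∑ i ∈ s, f i x) = fun k => ∑ i ∈ s, FC (f i) k := by
  classical
  induction s using Finset.induction_on with
  | empty =>
    funext k
    simp [FC]
  | insert a s ha ih =>
    have h1 : (fun x => ∑ i ∈ insert a s, f i x) = fun x => f a x + ∑ i ∈ s, f i x := by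
      funext x
      rw [Finset.sum_insert ha]
    rw [h1, FC_add B1 (h a) (perSm_sum s h), ih]
    funext k
    rw [Finset.sum_insert ha]

theorem perSm_vff {a : Fin 4 → R4 → ℂ} {f : R4 → ℂ} (ha : ∀ j, PerSm (a j)) (hf : PerSm f) :
    PerSm (vff a f) :=
  perSm_sum Finset.univ fun j => perSm_mul (ha j) (perSm_pd B1 j hf)

theorem FC_vff {a : Fin 4 → R4 → ℂ} {f : R4 → ℂ} (ha : ∀ j, PerSm (a j)) (hf : PerSm f) :
    FC (vff a f) = vf (fun j => FC (a j)) (FC f) := by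
  have h1 := FC_sum B1 Finset.univ (f := fun j x => a j x * pd j f x)
    fun j => perSm_mul (ha j) (perSm_pd B1 j hf)
  have h2 : vff a f = fun x => ∑ j, a j x * pd j f x := rfl
  rw [h2, h1]
  funext k
  unfold vf
  refine Finset.sum_congr rfl fun j _ => ?_
  rw [FC_mul B1 (ha j) (perSm_pd B1 j hf), FC_pd B1 j hf]

theorem FC_summable {f : R4 → ℂ} (hf : PerSm f) : Summable fun k => ‖FC f k‖ := by
  have h1 := ((B1.1 f hf).2 0).summable
  have h2 : (fun k : Z4 => ch k 0 * FC f k) = fun k => FC f k := by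
    funext k
    simp [ch]
  rw [h2] at h1
  exact h1.norm

end B1

/-! ### matrices -/

/-- matrix units -/
noncomputable def EE {N : ℕ} (i j : Fin N) :
    EuclideanSpace ℂ (Fin N) →L[ℂ] EuclideanSpace ℂ (Fin N) :=
  (EuclideanSpace.proj j : EuclideanSpace ℂ (Fin N) →L[ℂ] ℂ).smulRight (EuclideanSpace.single i 1)

theorem EE_apply {N : ℕ} (i j l : Fin N) (w : EuclideanSpace ℂ (Fin N)) :
    EE i j w l = if l = i then w j else 0 := by
  simp [EE]

/-- Fourier coefficients of a matrix of functions -/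
noncomputable def MM {N : ℕ} (M : Fin N → Fin N → R4 → ℂ) (k : Z4) :
    EuclideanSpace ℂ (Fin N) →L[ℂ] EuclideanSpace ℂ (Fin N) :=
  ∑ i, ∑ j, FC (M i j) k • EE i j

theorem MM_apply {N : ℕ} (M : Fin N → Fin N → R4 → ℂ) (k : Z4) (w : EuclideanSpace ℂ (Fin N))
    (i : Fin N) : MM M k w i = ∑ j, FC (M i j) k * w j := by
  unfold MM
  have h1 : (∑ i', ∑ j, FC (M i' j) k • EE i' j) w =
      ∑ i', ∑ j, FC (M i' j) k • EE i' j w := by
    simp
  rw [h1]
  have h2 : ∀ f : Fin N → EuclideanSpace ℂ (Fin N), (∑ i', f i') i = ∑ i', f i' i := by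
    intro f
    simp
  rw [h2, Finset.sum_eq_single i]
  · rw [h2]
    refine Finset.sum_congr rfl fun j _ => ?_
    rw [PiLp.smul_apply, EE_apply]
    simp
  · intro i' _ hi'
    rw [h2]
    refine Finset.sum_eq_zero fun j _ => ?_
    rw [PiLp.smul_apply, EE_apply, if_neg (fun h => hi' h.symm)]
    simp
  · intro h
    exact absurd (Finset.mem_univ _) h

theorem norm_MM {N : ℕ} (M : Fin N → Fin N → R4 → ℂ) (k : Z4) :
    ‖MM M k‖ ≤ ∑ i, ∑ j, ‖FC (M i j) k‖ * ‖(EE i j : EuclideanSpace ℂ (Fin N) →L[ℂ] _)‖ := by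
  unfold MM
  refine (norm_sum_le _ _).trans (Finset.sum_le_sum fun i _ => ?_)
  refine (norm_sum_le _ _).trans (Finset.sum_le_sum fun j _ => ?_)
  rw [norm_smul]

theorem Lam_ge (k : Z4) : 1 ≤ Lam 1 k := by
  unfold Lam
  rw [Real.one_le_sqrt]
  have : 0 ≤ sq4 k := Finset.sum_nonneg fun i _ => sq_nonneg _
  linarith

theorem Lam_pos (k : Z4) : 0 < Lam 1 k := lt_of_lt_of_le one_pos (Lam_ge k)

theorem rap_MM (B1 : B1Stmt) {N : ℕ} (M : Fin N → Fin N → R4 → ℂ) (h : ∀ i j, PerSm (M i j)) :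
    Rap (MM M) := by
  intro n
  have h1 : ∀ i j, ∃ C : ℝ, ∀ k, Lam 1 k ^ n * ‖FC (M i j) k‖ ≤ C := fun i j =>
    (B1.1 _ (h i j)).1 n
  choose C hC using h1
  refine ⟨∑ i, ∑ j, C i j * ‖(EE i j : EuclideanSpace ℂ (Fin N) →L[ℂ] _)‖, fun k => ?_⟩
  calc Lam 1 k ^ n * ‖MM M k‖
      ≤ Lam 1 k ^ n * ∑ i, ∑ j, ‖FC (M i j) k‖ * ‖(EE i j : EuclideanSpace ℂ (Fin N) →L[ℂ] _)‖ :=
        mul_le_mul_of_nonneg_left (norm_MM M k) (pow_nonneg (Lam_pos k).le n)
    _ = ∑ i, ∑ j, (Lam 1 k ^ n * ‖FC (M i j) k‖) *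
          ‖(EE i j : EuclideanSpace ℂ (Fin N) →L[ℂ] _)‖ := by
        rw [Finset.mul_sum]
        refine Finset.sum_congr rfl fun i _ => ?_
        rw [Finset.mul_sum]
        refine Finset.sum_congr rfl fun j _ => ?_
        ring
    _ ≤ _ := Finset.sum_le_sum fun i _ => Finset.sum_le_sum fun j _ =>
        mul_le_mul_of_nonneg_right (hC i j k) (norm_nonneg _)

theorem summable_MM (B1 : B1Stmt) {N : ℕ} (M : Fin N → Fin N → R4 → ℂ) (h : ∀ i j, PerSm (M i j)) :
    Summable fun k => ‖MM M k‖ := by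
  refine Summable.of_nonneg_of_le (fun k => norm_nonneg _) (fun k => norm_MM M k) ?_
  exact summable_sum fun i _ => summable_sum fun j _ => (FC_summable B1 (h i j)).mul_right _

/-- from function data to sequence data -/
noncomputable def tdata (B1 : B1Stmt) {N : ℕ} (D : FData N) : TData N where
  a := fun j => FC (D.a j)
  τ := fun j => FC (D.τ j)
  e := fun j => FC (D.e j)
  γ := FC D.γ
  φ := FC D.φ
  χ := FC D.χ
  α := FC D.α
  π1 := FC D.π1
  π2 := FC D.π2
  β := FC D.β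
  M := MM D.M
  c0 := D.c0
  hc0 := D.hc0
  ra := fun j => (B1.1 _ (D.ra j)).1
  rτ := fun j => (B1.1 _ (D.rτ j)).1
  re := fun j => (B1.1 _ (D.re j)).1
  rγ := (B1.1 _ D.rγ).1
  rφ := (B1.1 _ D.rφ).1
  rχ := (B1.1 _ D.rχ).1
  rα := (B1.1 _ D.rα).1
  rπ1 := (B1.1 _ D.rπ1).1
  rπ2 := (B1.1 _ D.rπ2).1
  rβ := (B1.1 _ D.rβ).1
  rM := rap_MM B1 D.M D.rM
  sγ := by
    rw [← FC_cj B1 D.rγ]
    congr 1
    exact funext D.sγ
  sφ := by
    rw [← FC_cj B1 D.rφ]
    congr 1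
    exact funext D.sφ
  sχ := by
    rw [← FC_cj B1 D.rχ]
    congr 1
    exact funext D.sχ
  comm := by
    intro j k
    have hc : ∀ i, PerSm (cj (D.a i)) := fun i => perSm_cj B1 (D.ra i)
    have e1 : (fun i => stS (FC (D.a i))) = fun i => FC (cj (D.a i)) := by
      funext i
      rw [FC_cj B1 (D.ra i)]
    rw [e1, ← FC_cj B1 (D.ra j), ← FC_cj B1 D.rα, ← FC_vff B1 D.ra (hc j),
      ← FC_vff B1 hc (D.ra j), ← FC_mul B1 D.rγ (D.rτ j), ← FC_mul B1 D.rα (hc j),
      ← FC_mul B1 (perSm_cj B1 D.rα) (D.ra j), ← FC_mul B1 D.rχ (D.re j)]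
    have h1 := congrFun (FC_sub B1 (perSm_vff B1 D.ra (hc j)) (perSm_vff B1 hc (D.ra j))) k
    have h2 := congrFun (FC_add B1 (perSm_sub (perSm_add (perSm_neg (perSm_mul D.rγ (D.rτ j)))
      (perSm_mul D.rα (hc j))) (perSm_mul (perSm_cj B1 D.rα) (D.ra j)))
      (perSm_mul D.rχ (D.re j))) k
    have h3 := congrFun (FC_sub B1 (perSm_add (perSm_neg (perSm_mul D.rγ (D.rτ j)))
      (perSm_mul D.rα (hc j))) (perSm_mul (perSm_cj B1 D.rα) (D.ra j))) k
    have h4 := congrFun (FC_add B1 (perSm_neg (perSm_mul D.rγ (D.rτ j)))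
      (perSm_mul D.rα (hc j))) k
    have h5 := congrFun (FC_neg (fun x => D.γ x * D.τ j x)) k
    have h6 : FC (fun x => vff D.a (cj (D.a j)) x - vff (fun i => cj (D.a i)) (D.a j) x) k =
        FC (fun x => - (D.γ x * D.τ j x) + D.α x * cj (D.a j) x - cj D.α x * D.a j x
          + D.χ x * D.e j x) k := by
      congr 2
      funext x
      exact D.comm j x
    rw [h2, h3, h4, h5] at h6
    rw [← h6]
    exact h1.symm
  pos := by
    intro k
    have hc : ∀ i, PerSm (cj (D.a i)) := fun i => perSm_cj B1 (D.ra i)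
    have e1 : (fun i => stS (FC (D.a i))) = fun i => FC (cj (D.a i)) := by
      funext i
      rw [FC_cj B1 (D.ra i)]
    have v1 := perSm_vff B1 hc D.rφ
    have v2 := perSm_vff B1 D.ra D.rφ
    have v3 := perSm_vff B1 D.ra v1
    have v4 := perSm_vff B1 hc v2
    have v5 := perSm_mul D.rα v1
    have v6 := perSm_mul (perSm_cj B1 D.rα) v2
    have v7 := perSm_mul D.rβ (perSm_cj B1 D.rβ)
    have v8 := perSm_mul D.rγ D.rπ1
    have v9 := perSm_mul D.rχ D.rπ2
    rw [e1, ← FC_vff B1 hc D.rφ, ← FC_vff B1 D.ra v1, ← FC_vff B1 D.ra D.rφ, ← FC_vff B1 hc v2,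
      ← FC_mul B1 D.rα v1, ← FC_cj B1 D.rα, ← FC_mul B1 (perSm_cj B1 D.rα) v2, ← FC_cj B1 D.rβ,
      ← FC_mul B1 D.rβ (perSm_cj B1 D.rβ), ← FC_mul B1 D.rγ D.rπ1, ← FC_mul B1 D.rχ D.rπ2]
    have h1 := congrFun (FC_sub B1 (perSm_sub (perSm_add v3 v4) v5) v6) k
    have h2 := congrFun (FC_sub B1 (perSm_add v3 v4) v5) k
    have h3 := congrFun (FC_add B1 v3 v4) k
    have g1 := congrFun (FC_add B1 (perSm_add (perSm_add (perSm_const (2 * (D.c0 : ℂ))) v7) v8) v9) k
    have g2 := congrFun (FC_add B1 (perSm_add (perSm_const (2 * (D.c0 : ℂ))) v7) v8) k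
    have g3 := congrFun (FC_add B1 (perSm_const (2 * (D.c0 : ℂ))) v7) k
    have g4 := congrFun (FC_const B1 (2 * (D.c0 : ℂ))) k
    have h6 : FC (fun x => vff D.a (vff (fun i => cj (D.a i)) D.φ) x
        + vff (fun i => cj (D.a i)) (vff D.a D.φ) x
        - D.α x * vff (fun i => cj (D.a i)) D.φ x - cj D.α x * vff D.a D.φ x) k =
        FC (fun x => 2 * (D.c0 : ℂ) + D.β x * cj D.β x + D.γ x * D.π1 x + D.χ x * D.π2 x) k := by
      congr 2
      funext x
      exact D.pos x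
    rw [h1, h2, h3, g1, g2, g3, g4] at h6
    exact h6

end Pool.Agent.AK.H50
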