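import Pool.Agent.Helper60_AK.StmtF

set_option autoImplicit false

/-!
Squad AK, module E5: deep inside, all terms are small.
-/

open Filter Topology

namespace Pool.Agent.AK.H50

open Complex

theorem CS_cont {V : Set C2} {s : ℕ} {u : C2 → ℂ} (h : CS V s u) : ContinuousOn u (closure V) := by
  obtain ⟨U, _, hVU, hu⟩ := h
  exact hu.continuousOn.mono hVU

theorem CS_zero {V : Set C2} {s : ℕ} {u : C2 → ℂ} (h : CS V s u) : CS V 0 u := by
  obtain ⟨U, hU, hVU, hu⟩ := h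
  exact ⟨U, hU, hVU, hu.of_le (by exact_mod_cast Nat.zero_le s)⟩

theorem qf_cont {V : Set C2} {c : ℕ → C2 → ℂ} (hc : ∀ k, ContinuousOn (c k) (closure V)) :
    ∀ j k, ContinuousOn (qf c j k) (closure V) := by
  intro j
  induction j with
  | zero =>
    intro k
    exact continuousOn_const
  | succ j ih =>
    intro k
    have h1 : ContinuousOn (fun p => (1 / ((j : ℂ) + 1)) *
        ∑ i ∈ Finset.Icc 1 k, c i p * qf c j (k - i) p) (closure V) :=
      continuousOn_const.mul (continuousOn_finsetSum _ fun i _ => (hc i).mul (ih (k - i)))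
    exact h1

theorem e5 (hE2 : E2Stmt) (_hF : F5aStmt) : E5Stmt := by
  intro Ω ρ f k0 B V t0 c2 hA J c K' K h hJ hT hK
  have hcont : ∀ k, ContinuousOn (c k) (closure V) := fun k => CS_cont (hT.sm k)
  have hc0 : CS V 0 (c 0) := CS_zero (hT.sm 0)
  -- the terms
  have h1 : ∀ k j : ℕ, ∃ C : ℝ, 0 ≤ C ∧ (k ≤ J → 1 ≤ j → ∀ ε : ℝ, 0 < ε → ε < t0 → ∀ p ∈ V,
      ρ p ≤ -ε → ‖Ik ρ f (c 0) t0 ε k (h k j) p‖ ≤ C * (ε / |ρ p|) ^ (J + 1)) := by
    intro k j
    by_cases hkj : k ≤ J ∧ 1 ≤ j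
    · obtain ⟨hk, hj⟩ := hkj
      obtain ⟨C, hC⟩ := hE2 Ω ρ f k0 B V t0 c2 hA (c 0) hc0 k (J - k) (h k j) (hK.dec k j)
        (fun i _ hi => hK.mom i k j (by omega) hj)
      have hmass : ∫ x : ℝ, h k j (x : ℂ) = 0 := by
        have := hK.mom 0 k j (by omega) hj
        simpa using this
      refine ⟨|C|, abs_nonneg C, fun _ _ ε hε hεt p hp hρ => ?_⟩
      have h2 := hC ε hε hεt p hp hρ
      rw [hmass, zero_mul, zero_mul, sub_zero, show J - k + 1 + k = J + 1 by omega] at h2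
      refine h2.trans (mul_le_mul_of_nonneg_right (le_abs_self C) ?_)
      exact pow_nonneg (div_nonneg hε.le (abs_nonneg _)) _
    · exact ⟨0, le_rfl, fun hk hj => absurd ⟨hk, hj⟩ hkj⟩
  choose C hC0 hC using h1
  obtain ⟨CK, hCK⟩ := hE2 Ω ρ f k0 B V t0 c2 hA (c 0) hc0 0 J K hK.decK
    (fun i hi hiJ => hK.momK i hi hiJ)
  -- the coefficients
  have h3 : ∀ k j : ℕ, ∃ D : ℝ, 0 ≤ D ∧ ∀ p ∈ V, ‖exp ((k : ℂ) * c 0 p) * qf c j k p‖ ≤ D := by
    intro k j
    have h4 : ContinuousOn (fun p => exp ((k : ℂ) * c 0 p) * qf c j k p) (closure V) :=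
      (continuousOn_const.mul (hcont 0)).cexp.mul (qf_cont hcont j k)
    obtain ⟨D, hD⟩ := hA.geo.cpt.exists_bound_of_continuousOn h4
    exact ⟨|D|, abs_nonneg D, fun p hp => (hD p (subset_closure hp)).trans (le_abs_self D)⟩
  choose D hD0 hD using h3
  set S1 : ℝ := ∑ k ∈ Finset.range (J + 1), ∑ j ∈ Finset.range (J + 3), C k j with hS1
  set S2 : ℝ := ∑ k ∈ Finset.Icc 1 J, ∑ j ∈ Finset.Icc 1 k, D k j * C k j with hS2
  have hS1n : 0 ≤ S1 := Finset.sum_nonneg fun k _ => Finset.sum_nonneg fun j _ => hC0 k j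
  have hS2n : 0 ≤ S2 := Finset.sum_nonneg fun k _ => Finset.sum_nonneg fun j _ =>
    mul_nonneg (hD0 k j) (hC0 k j)
  refine ⟨S1 + |CK| + S2, fun ε hε hεt p hp hρ => ?_⟩
  set r : ℝ := (ε / |ρ p|) ^ (J + 1) with hr
  have hr0 : 0 ≤ r := pow_nonneg (div_nonneg hε.le (abs_nonneg _)) _
  refine ⟨fun k hk j hj hjJ => ?_, ?_⟩
  · refine (hC k j hk hj ε hε hεt p hp hρ).trans (mul_le_mul_of_nonneg_right ?_ hr0)
    have h5 : C k j ≤ ∑ j ∈ Finset.range (J + 3), C k j :=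
      Finset.single_le_sum (f := fun j => C k j) (fun j _ => hC0 k j)
        (Finset.mem_range.2 (by omega))
    have h6 : ∑ j ∈ Finset.range (J + 3), C k j ≤ S1 :=
      Finset.single_le_sum (f := fun k => ∑ j ∈ Finset.range (J + 3), C k j)
        (fun k _ => Finset.sum_nonneg fun j _ => hC0 k j) (Finset.mem_range.2 (by omega))
    linarith [abs_nonneg CK]
  · have h7 := hCK ε hε hεt p hp hρ
    have h8 : Fk ρ f 0 p 0 = f p := by simp [Fk]
    rw [hK.mass, h8, pow_zero, one_mul, one_mul, show J + 1 + 0 = J + 1 by omega] at h7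
    have h9 : ‖∑ k ∈ Finset.Icc 1 J, ∑ j ∈ Finset.Icc 1 k,
        exp ((k : ℂ) * c 0 p) * qf c j k p * Ik ρ f (c 0) t0 ε k (h k j) p‖ ≤ S2 * r := by
      refine (norm_sum_le _ _).trans ?_
      rw [hS2, Finset.sum_mul]
      refine Finset.sum_le_sum fun k hk => ?_
      refine (norm_sum_le _ _).trans ?_
      rw [Finset.sum_mul]
      refine Finset.sum_le_sum fun j hj => ?_
      rw [Finset.mem_Icc] at hk hj
      rw [norm_mul]
      calc ‖exp ((k : ℂ) * c 0 p) * qf c j k p‖ * ‖Ik ρ f (c 0) t0 ε k (h k j) p‖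
          ≤ D k j * (C k j * r) := mul_le_mul (hD k j p hp)
            (hC k j hk.2 hj.1 ε hε hεt p hp hρ) (norm_nonneg _) (hD0 k j)
        _ = _ := by ring
    have h10 : Feps ρ f c t0 ε J K h p - f p = (Ik ρ f (c 0) t0 ε 0 K p - f p) +
        ∑ k ∈ Finset.Icc 1 J, ∑ j ∈ Finset.Icc 1 k,
        exp ((k : ℂ) * c 0 p) * qf c j k p * Ik ρ f (c 0) t0 ε k (h k j) p := by
      unfold Feps
      ring
    rw [h10]
    refine (norm_add_le _ _).trans ?_
    have h11 : CK * r ≤ |CK| * r := mul_le_mul_of_nonneg_right (le_abs_self CK) hr0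
    have h12 : 0 ≤ S1 * r := mul_nonneg hS1n hr0
    nlinarith

end Pool.Agent.AK.H50
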