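import Pool.Agent.Helper60_AK.StmtF
import Pool.Agent.Helper23_Squeeze.Holo

set_option autoImplicit false

/-!
Squad AK, module F1b: the dbar derivative of F_k.
-/

open Filter Topology

namespace Pool.Agent.AK.H50

open Complex

/-- complex partial derivative -/
noncomputable def dm (m : Fin 2) (f : C2 → ℂ) : C2 → ℂ := fun z => fderiv ℂ f z (Pi.single m 1)

theorem dm_hol {Ω : Set C2} (hΩ : IsOpen Ω) {f : C2 → ℂ} (hf : DifferentiableOn ℂ f Ω)
    (m : Fin 2) : DifferentiableOn ℂ (dm m f) Ω :=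
  Pool.Agent.Squeeze.differentiableOn_fderiv_apply hΩ hf _

theorem fderiv_dm (f : C2 → ℂ) (z w : C2) : fderiv ℂ f z w = ∑ m, w m * dm m f z := by
  have h : w = ∑ m, w m • (Pi.single m 1 : C2) := by
    funext i
    fin_cases i <;> simp
  conv_lhs => rw [h]
  rw [map_sum]
  refine Finset.sum_congr rfl fun m _ => ?_
  rw [map_smul, smul_eq_mul]
  rfl

theorem fderiv_eq (f : C2 → ℂ) (z : C2) : fderiv ℂ f z =
    ∑ m, dm m f z • (ContinuousLinearMap.proj m : C2 →L[ℂ] ℂ) := by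
  apply ContinuousLinearMap.ext
  intro w
  rw [fderiv_dm]
  simp
  ring

theorem dm_comm {Ω : Set C2} (hΩ : IsOpen Ω) {f : C2 → ℂ} (hf : DifferentiableOn ℂ f Ω)
    (l m : Fin 2) {z : C2} (hz : z ∈ Ω) : dm l (dm m f) z = dm m (dm l f) z := by
  have h1 : ∀ m : Fin 2, HasFDerivAt (dm m f) (fderiv ℂ (dm m f) z) z := fun m =>
    ((dm_hol hΩ hf m z hz).differentiableAt (hΩ.mem_nhds hz)).hasFDerivAt
  have h2 : HasFDerivAt (fderiv ℂ f) (∑ m, (fderiv ℂ (dm m f) z).smulRight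
      (ContinuousLinearMap.proj m : C2 →L[ℂ] ℂ)) z := by
    have h3 : fderiv ℂ f = fun y => ∑ m, dm m f y • (ContinuousLinearMap.proj m : C2 →L[ℂ] ℂ) :=
      funext (fderiv_eq f)
    rw [h3]
    exact HasFDerivAt.fun_sum fun m _ =>
      (h1 m).smul_const (ContinuousLinearMap.proj m : C2 →L[ℂ] ℂ)
  have h4 : ∀ᶠ y in 𝓝 z, HasFDerivAt f (fderiv ℂ f y) y := by
    filter_upwards [hΩ.mem_nhds hz] with y hy
    exact ((hf y hy).differentiableAt (hΩ.mem_nhds hy)).hasFDerivAt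
  have h5 := second_derivative_symmetric_of_eventually h4 h2 (Pi.single l 1) (Pi.single m 1)
  have h6 : ∀ a b : Fin 2, (∑ m, (fderiv ℂ (dm m f) z).smulRight
      (ContinuousLinearMap.proj m : C2 →L[ℂ] ℂ)) (Pi.single a 1) (Pi.single b 1) =
      dm a (dm b f) z := by
    intro a b
    show _ = fderiv ℂ (dm b f) z (Pi.single a 1)
    rw [Fin.sum_univ_two]
    fin_cases b <;> simp
  rw [h6, h6] at h5
  exact h5

/-- the points of the complex line -/
theorem line_open {Ω : Set C2} (hΩ : IsOpen Ω) (w v : C2) : IsOpen {lam : ℂ | w + lam • v ∈ Ω} :=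
  hΩ.preimage (by fun_prop)

theorem line_hol {Ω : Set C2} {f : C2 → ℂ} (hf : DifferentiableOn ℂ f Ω) (w v : C2) :
    DifferentiableOn ℂ (fun lam : ℂ => f (w + lam • v)) {lam : ℂ | w + lam • v ∈ Ω} := by
  intro lam hlam
  have h1 : DifferentiableAt ℂ (fun lam : ℂ => w + lam • v) lam := by fun_prop
  exact (hf _ hlam).comp lam h1.differentiableWithinAt fun _ h => h

theorem line_cd {Ω : Set C2} (hΩ : IsOpen Ω) {f : C2 → ℂ} (hf : DifferentiableOn ℂ f Ω)
    (w v : C2) (hw : w ∈ Ω) (n : WithTop ℕ∞) :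
    ContDiffAt ℂ n (fun lam : ℂ => f (w + lam • v)) 0 :=
  ((line_hol hf w v).contDiffOn (line_open hΩ w v)).contDiffAt
    ((line_open hΩ w v).mem_nhds (by simpa using hw))

theorem line_ev {Ω : Set C2} (hΩ : IsOpen Ω) (w v : C2) (hw : w ∈ Ω) :
    ∀ᶠ lam : ℂ in 𝓝 0, w + lam • v ∈ Ω :=
  (line_open hΩ w v).mem_nhds (by simpa using hw)

theorem iter_succ {Ω : Set C2} (hΩ : IsOpen Ω) {f : C2 → ℂ} (hf : DifferentiableOn ℂ f Ω)
    (w v : C2) (hw : w ∈ Ω) (k : ℕ) :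
    iteratedDeriv (k + 1) (fun lam : ℂ => f (w + lam • v)) 0 =
      ∑ m, v m * iteratedDeriv k (fun lam : ℂ => dm m f (w + lam • v)) 0 := by
  rw [iteratedDeriv_succ']
  have h1 : deriv (fun lam : ℂ => f (w + lam • v)) =ᶠ[𝓝 0]
      fun lam => ∑ m, v m * dm m f (w + lam • v) := by
    filter_upwards [line_ev hΩ w v hw] with lam hlam
    have h2 : HasFDerivAt f (fderiv ℂ f (w + lam • v)) (w + lam • v) :=
      ((hf _ hlam).differentiableAt (hΩ.mem_nhds hlam)).hasFDerivAt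
    have h3 : HasDerivAt (fun lam : ℂ => w + lam • v) v lam := by
      have := ((hasDerivAt_id lam).smul_const v).const_add w
      simpa using this
    have h4 := h2.comp_hasDerivAt lam h3
    rw [← fderiv_dm]
    exact h4.deriv
  rw [h1.iteratedDeriv_eq, iteratedDeriv_fun_sum]
  · refine Finset.sum_congr rfl fun m _ => ?_
    exact iteratedDeriv_const_mul_field (v m) (fun lam : ℂ => dm m f (w + lam • v))
  · intro m _
    exact contDiffAt_const.mul (line_cd hΩ (dm_hol hΩ hf m) w v hw k)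

section

variable {Ω : Set C2} {ρ : C2 → ℝ} {f : C2 → ℂ}

theorem Fk_succ (hΩ : IsOpen Ω) (hf : DifferentiableOn ℂ f Ω) {q : C2} {t : ℝ}
    (h : (q, t) ∈ FDom Ω ρ) (k : ℕ) :
    Fk ρ f (k + 1) q t = ∑ m, tau ρ q m * Fk ρ (dm m f) k q t :=
  iter_succ hΩ hf _ _ h.2 k

theorem Fk_congr (hΩ : IsOpen Ω) {g : C2 → ℂ} (hfg : ∀ z ∈ Ω, f z = g z) {q : C2} {t : ℝ}
    (h : (q, t) ∈ FDom Ω ρ) (k : ℕ) : Fk ρ f k q t = Fk ρ g k q t := by
  unfold Fk
  apply Filter.EventuallyEq.iteratedDeriv_eq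
  filter_upwards [line_ev hΩ _ (tau ρ q) h.2] with lam hlam
  exact hfg _ hlam

theorem Fk_zero (q : C2) (t : ℝ) : Fk ρ f 0 q t = f (q + (t : ℂ) • nu ρ q) := by
  simp [Fk]

theorem Fk_dt (hΩ : IsOpen Ω) (hopen : IsOpen (FDom Ω ρ)) {q : C2} {t : ℝ}
    (h : (q, t) ∈ FDom Ω ρ) (k : ℕ) : ∀ f : C2 → ℂ, DifferentiableOn ℂ f Ω →
    HasDerivAt (fun s => Fk ρ f k q s) (∑ m, nu ρ q m * Fk ρ (dm m f) k q t) t := by
  induction k with
  | zero =>
    intro f hf
    have h1 : HasFDerivAt f ((fderiv ℂ f (q + (t : ℂ) • nu ρ q)).restrictScalars ℝ)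
        (q + (t : ℂ) • nu ρ q) :=
      (((hf _ h.2).differentiableAt (hΩ.mem_nhds h.2)).hasFDerivAt).restrictScalars ℝ
    have h2 : HasDerivAt (fun s : ℝ => q + (s : ℂ) • nu ρ q) (nu ρ q) t := by
      have := ((Complex.ofRealCLM.hasDerivAt (x := t)).smul_const (nu ρ q)).const_add q
      simpa using this
    have h3 := h1.comp_hasDerivAt t h2
    have h4 : (fun s => Fk ρ f 0 q s) = f ∘ fun s : ℝ => q + (s : ℂ) • nu ρ q :=
      funext fun s => Fk_zero q s
    rw [h4]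
    have h5 : (∑ m, nu ρ q m * Fk ρ (dm m f) 0 q t) =
        (fderiv ℂ f (q + (t : ℂ) • nu ρ q)) (nu ρ q) := by
      rw [fderiv_dm]
      simp only [Fk_zero]
    rw [h5]
    exact h3
  | succ k ih =>
    intro f hf
    have h1 : (fun s => Fk ρ f (k + 1) q s) =ᶠ[𝓝 t]
        fun s => ∑ m, tau ρ q m * Fk ρ (dm m f) k q s := by
      have h2 : ∀ᶠ s in 𝓝 t, (q, s) ∈ FDom Ω ρ :=
        (hopen.preimage (by fun_prop : Continuous fun s : ℝ => (q, s))).mem_nhds h
      filter_upwards [h2] with s hs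
      exact Fk_succ hΩ hf hs k
    have h3 : HasDerivAt (fun s => ∑ m, tau ρ q m * Fk ρ (dm m f) k q s)
        (∑ m, tau ρ q m * ∑ l, nu ρ q l * Fk ρ (dm l (dm m f)) k q t) t :=
      HasDerivAt.fun_sum fun m _ => (ih (dm m f) (dm_hol hΩ hf m)).const_mul _
    have h4 : (∑ m, nu ρ q m * Fk ρ (dm m f) (k + 1) q t) =
        ∑ m, tau ρ q m * ∑ l, nu ρ q l * Fk ρ (dm l (dm m f)) k q t := by
      have h5 : ∀ m, Fk ρ (dm m f) (k + 1) q t = ∑ l, tau ρ q l * Fk ρ (dm m (dm l f)) k q t := by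
        intro m
        rw [Fk_succ hΩ (dm_hol hΩ hf m) h k]
        refine Finset.sum_congr rfl fun l _ => ?_
        rw [Fk_congr hΩ (fun z hz => dm_comm hΩ hf l m hz) h k]
      simp only [h5, Fin.sum_univ_two]
      ring
    rw [h4]
    exact h3.congr_of_eventuallyEq h1

theorem Fk_dt_succ (hΩ : IsOpen Ω) (hopen : IsOpen (FDom Ω ρ)) {q : C2} {t : ℝ}
    (h : (q, t) ∈ FDom Ω ρ) (k : ℕ) (f : C2 → ℂ) (hf : DifferentiableOn ℂ f Ω) :
    deriv (fun s => Fk ρ f (k + 1) q s) t =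
      ∑ m, tau ρ q m * deriv (fun s => Fk ρ (dm m f) k q s) t := by
  have h1 : (fun s => Fk ρ f (k + 1) q s) =ᶠ[𝓝 t]
      fun s => ∑ m, tau ρ q m * Fk ρ (dm m f) k q s := by
    have h2 : ∀ᶠ s in 𝓝 t, (q, s) ∈ FDom Ω ρ :=
      (hopen.preimage (by fun_prop : Continuous fun s : ℝ => (q, s))).mem_nhds h
    filter_upwards [h2] with s hs
    exact Fk_succ hΩ hf hs k
  have h3 : HasDerivAt (fun s => ∑ m, tau ρ q m * Fk ρ (dm m f) k q s)
      (∑ m, tau ρ q m * deriv (fun s => Fk ρ (dm m f) k q s) t) t :=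
    HasDerivAt.fun_sum fun m _ =>
      ((Fk_dt hΩ hopen h k (dm m f) (dm_hol hΩ hf m)).differentiableAt.hasDerivAt).const_mul _
  exact (h3.congr_of_eventuallyEq h1).deriv

end

theorem dzb_add {p : C2} {u w : C2 → ℂ} (hu : DifferentiableAt ℝ u p)
    (hw : DifferentiableAt ℝ w p) (i : Fin 2) :
    dzb i (fun q => u q + w q) p = dzb i u p + dzb i w p := by
  unfold dzb
  rw [fderiv_fun_add hu hw]
  simp
  ring

theorem dzb_mul {p : C2} {u w : C2 → ℂ} (hu : DifferentiableAt ℝ u p)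
    (hw : DifferentiableAt ℝ w p) (i : Fin 2) :
    dzb i (fun q => u q * w q) p = dzb i u p * w p + u p * dzb i w p := by
  unfold dzb
  rw [fderiv_fun_mul hu hw]
  simp
  ring

theorem dzb_coord {p : C2} {u : C2 → C2} (hu : DifferentiableAt ℝ u p) (i m : Fin 2) :
    dzb i (fun q => u q m) p = dzb i u p m := by
  have h1 : HasFDerivAt (fun q => u q m) ((ContinuousLinearMap.proj m : C2 →L[ℝ] ℂ).comp
      (fderiv ℝ u p)) p :=
    (ContinuousLinearMap.proj m : C2 →L[ℝ] ℂ).hasFDerivAt.comp p hu.hasFDerivAt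
  unfold dzb
  rw [h1.fderiv]
  simp

theorem dzb_eventuallyEq {p : C2} {u w : C2 → ℂ} (h : u =ᶠ[𝓝 p] w) (i : Fin 2) :
    dzb i u p = dzb i w p := by
  unfold dzb
  rw [h.fderiv_eq]

/-- dbar of a holomorphic function of a smooth map -/
theorem dzb_comp {Ω : Set C2} (hΩ : IsOpen Ω) {f : C2 → ℂ} (hf : DifferentiableOn ℂ f Ω)
    {W : C2 → C2} {p : C2} (hW : DifferentiableAt ℝ W p) (hp : W p ∈ Ω) (i : Fin 2) :
    dzb i (fun q => f (W q)) p = fderiv ℂ f (W p) (dzb i W p) := by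
  have h1 : HasFDerivAt f ((fderiv ℂ f (W p)).restrictScalars ℝ) (W p) :=
    (((hf _ hp).differentiableAt (hΩ.mem_nhds hp)).hasFDerivAt).restrictScalars ℝ
  have h2 : HasFDerivAt (fun q => f (W q)) (((fderiv ℂ f (W p)).restrictScalars ℝ).comp
      (fderiv ℝ W p)) p := h1.comp p hW.hasFDerivAt
  unfold dzb
  rw [h2.fderiv]
  simp
  ring

theorem dzb_shift {u : C2 → C2} {p : C2} (hu : DifferentiableAt ℝ u p) (t : ℝ) (i : Fin 2) :
    dzb i (fun q => q + (t : ℂ) • u q) p = (t : ℂ) • dzb i u p := by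
  have h1 : HasFDerivAt (fun q => q + (t : ℂ) • u q) (ContinuousLinearMap.id ℝ C2 +
      (t : ℂ) • fderiv ℝ u p) p := (hasFDerivAt_id p).add (hu.hasFDerivAt.const_smul (t : ℂ))
  unfold dzb
  rw [h1.fderiv]
  funext m
  have h2 : (Pi.single i I : C2) = I • (Pi.single i 1 : C2) := by
    funext l
    by_cases h : l = i
    · subst h; simp
    · simp [h]
  rw [h2]
  simp only [add_apply, ContinuousLinearMap.coe_id', id_eq, smul_apply, Pi.smul_apply,
    Pi.add_apply, smul_eq_mul]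
  have h3 : I * (I * (Pi.single i 1 : C2) m) = - (Pi.single i 1 : C2) m := by
    rw [← mul_assoc, I_mul_I]
    ring
  linear_combination (1 / 2 : ℂ) * h3

theorem f1b (hC1 : C1Stmt) (hF : F1aStmt) : F1bStmt := by
  intro Ω ρ f₀ hΩ hρ hf₀ k
  obtain ⟨hopen, hnu, htau, -, -⟩ := hF Ω ρ f₀ hΩ hρ hf₀
  have hsm : ∀ (f : C2 → ℂ), DifferentiableOn ℂ f Ω → ∀ (k : ℕ) (p : C2) (t : ℝ),
      (p, t) ∈ FDom Ω ρ → DifferentiableAt ℝ (fun q => Fk ρ f k q t) p := by
    intro f hf k p t h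
    have h1 := (hF Ω ρ f hΩ hρ hf).2.2.2.1 k
    have h2 : DifferentiableAt ℝ (fun x : C2 × ℝ => Fk ρ f k x.1 x.2) (p, t) :=
      (h1.differentiableOn (by simp)).differentiableAt (hopen.mem_nhds h)
    have h3 : DifferentiableAt ℝ (fun q : C2 => (q, t)) p := by fun_prop
    exact DifferentiableAt.comp p h2 h3
  suffices H : ∀ (k : ℕ) (f : C2 → ℂ), DifferentiableOn ℂ f Ω → ∀ (p : C2) (t : ℝ),
      (p, t) ∈ FDom Ω ρ → ∀ i : Fin 2, dzb i (fun q => Fk ρ f k q t) p =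
        (t : ℂ) * fA ρ i p * deriv (fun s => Fk ρ f k p s) t
        + (t : ℂ) * fB ρ i p * Fk ρ f (k + 1) p t
        + (k : ℂ) * fC ρ i p * deriv (fun s => Fk ρ f (k - 1) p s) t
        + (k : ℂ) * fE ρ i p * Fk ρ f k p t from H k f₀ hf₀
  intro k
  induction k with
  | zero =>
    intro f hf p t h i
    obtain ⟨c1, -⟩ := hC1 ρ hρ p h.1
    have hnd : DifferentiableAt ℝ (nu ρ) p := by
      have h1 : IsOpen {q | g2 ρ q ≠ 0} := by
        have h2 := (hF Set.univ ρ (fun _ => 0) isOpen_univ hρ (differentiableOn_const _)).1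
        have h3 : {q : C2 | g2 ρ q ≠ 0} = (fun q : C2 => (q, (0 : ℝ))) ⁻¹' FDom Set.univ ρ := by
          ext q
          simp [FDom]
        rw [h3]
        exact h2.preimage (by fun_prop)
      exact (hnu.differentiableOn (by simp)).differentiableAt (h1.mem_nhds h.1)
    have h1 : (fun q => Fk ρ f 0 q t) = fun q => f (q + (t : ℂ) • nu ρ q) :=
      funext fun q => Fk_zero q t
    rw [h1, dzb_comp hΩ hf (W := fun q => q + (t : ℂ) • nu ρ q)
      (differentiableAt_id.add (hnd.const_smul (t : ℂ))) h.2, dzb_shift hnd, c1 i,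
      (Fk_dt hΩ hopen h 0 f hf).deriv, Fk_succ hΩ hf h 0, fderiv_dm]
    simp only [Fk_zero, Fin.sum_univ_two]
    simp
    ring
  | succ k ih =>
    intro f hf p t h i
    obtain ⟨-, c2, -⟩ := hC1 ρ hρ p h.1
    have htd : DifferentiableAt ℝ (tau ρ) p := (htau.differentiable (by simp)) p
    have htm : ∀ m, DifferentiableAt ℝ (fun q => tau ρ q m) p := fun m =>
      (ContinuousLinearMap.proj m : C2 →L[ℝ] ℂ).differentiableAt.comp p htd
    have hev : (fun q => Fk ρ f (k + 1) q t) =ᶠ[𝓝 p]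
        fun q => tau ρ q 0 * Fk ρ (dm 0 f) k q t + tau ρ q 1 * Fk ρ (dm 1 f) k q t := by
      have h2 : ∀ᶠ q in 𝓝 p, (q, t) ∈ FDom Ω ρ :=
        (hopen.preimage (by fun_prop : Continuous fun q : C2 => (q, t))).mem_nhds h
      filter_upwards [h2] with q hq
      rw [Fk_succ hΩ hf hq k, Fin.sum_univ_two]
    have hd : ∀ m, DifferentiableAt ℝ (fun q => Fk ρ (dm m f) k q t) p := fun m =>
      hsm (dm m f) (dm_hol hΩ hf m) k p t h
    have hp : ∀ m, DifferentiableAt ℝ (fun q => tau ρ q m * Fk ρ (dm m f) k q t) p := fun m =>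
      (htm m).mul (hd m)
    rw [dzb_eventuallyEq hev, dzb_add (hp 0) (hp 1),
      dzb_mul (htm 0) (hd 0), dzb_mul (htm 1) (hd 1), dzb_coord htd, dzb_coord htd, c2 i,
      ih (dm 0 f) (dm_hol hΩ hf 0) p t h i, ih (dm 1 f) (dm_hol hΩ hf 1) p t h i]
    have e1 := Fk_dt_succ hΩ hopen h k f hf
    have e2 := (Fk_dt hΩ hopen h k f hf).deriv
    have e3 := Fk_succ hΩ hf h k
    have e4 := Fk_succ hΩ hf h (k + 1)
    have e5 : (k : ℂ) * deriv (fun s => Fk ρ f k p s) t =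
        (k : ℂ) * ∑ m, tau ρ p m * deriv (fun s => Fk ρ (dm m f) (k - 1) p s) t := by
      cases k with
      | zero => simp
      | succ k =>
        rw [Fk_dt_succ hΩ hopen h k f hf]
        rfl
    rw [Fin.sum_univ_two] at e1 e2 e3 e4 e5
    rw [Nat.add_sub_cancel, e1, e3, e4]
    simp only [Pi.add_apply, Pi.smul_apply, smul_eq_mul]
    push_cast
    linear_combination (- fC ρ i p) * e2 - fC ρ i p * e5

end Pool.Agent.AK.H50
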